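import Pool.Agent.Helper25.HL.Goals3

/-!
Packet HL-CN (MP_03bcbb_an): the cut estimate for finite normalised systems.
-/

set_option autoImplicit false

open Filter Topology

noncomputable section

namespace Pool.Agent.Helper93.HL

open Pool.Agent.Helper25.HL Finset

theorem cs_w {N : ℕ} (w a b : Fin N → ℝ) (hw : ∀ i, 0 ≤ w i) :
    ∑ i, w i * (a i * b i) ≤ Real.sqrt (∑ i, w i * a i ^ 2) * Real.sqrt (∑ i, w i * b i ^ 2) := by
  have h := Real.sum_mul_le_sqrt_mul_sqrt Finset.univ (fun i => Real.sqrt (w i) * a i)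
    (fun i => Real.sqrt (w i) * b i)
  have e1 : ∀ i, Real.sqrt (w i) * a i * (Real.sqrt (w i) * b i) = w i * (a i * b i) := by
    intro i
    calc Real.sqrt (w i) * a i * (Real.sqrt (w i) * b i) =
        (Real.sqrt (w i) * Real.sqrt (w i)) * (a i * b i) := by ring
      _ = w i * (a i * b i) := by rw [Real.mul_self_sqrt (hw i)]
  have e2 : ∀ (d : Fin N → ℝ) i, (Real.sqrt (w i) * d i) ^ 2 = w i * d i ^ 2 := by
    intro d i
    rw [mul_pow, Real.sq_sqrt (hw i)]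
  simp only [e1, e2] at h
  exact h

/-- Cauchy-Schwarz for square roots with weights of total mass at most `K`. -/
theorem cs_sqrt {N : ℕ} (w E : Fin N → ℝ) (hw : ∀ i, 0 ≤ w i) (hE : ∀ i, 0 ≤ E i) {K ε : ℝ}
    (hK : ∑ i, w i ≤ K) (hε : 0 ≤ ε) (h : ∑ i, w i * E i ≤ ε ^ 2) :
    ∑ i, w i * Real.sqrt (E i) ≤ Real.sqrt K * ε := by
  have h1 := cs_w w (fun _ => 1) (fun i => Real.sqrt (E i)) hw
  have e1 : ∀ i, w i * (1 * Real.sqrt (E i)) = w i * Real.sqrt (E i) := fun i => by rw [one_mul]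
  have e2 : ∀ i, w i * Real.sqrt (E i) ^ 2 = w i * E i := fun i => by rw [Real.sq_sqrt (hE i)]
  have e3 : ∀ i : Fin N, w i * (1 : ℝ) ^ 2 = w i := fun i => by rw [one_pow, mul_one]
  simp only [e1, e2, e3] at h1
  refine h1.trans (mul_le_mul (Real.sqrt_le_sqrt hK) ?_ (Real.sqrt_nonneg _)
    (Real.sqrt_nonneg _))
  rw [← Real.sqrt_sq hε]
  exact Real.sqrt_le_sqrt h

theorem sqrt_add_sqrt_le {a b : ℝ} (ha : 0 ≤ a) (hb : 0 ≤ b) :
    Real.sqrt a + Real.sqrt b ≤ Real.sqrt (2 * (a + b)) := by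
  apply Real.le_sqrt_of_sq_le
  have h1 := Real.sq_sqrt ha
  have h2 := Real.sq_sqrt hb
  nlinarith [sq_nonneg (Real.sqrt a - Real.sqrt b)]

/-- The norm of a level is at most `sqrt (4/3)` times the Euclidean norm. -/
theorem norm_lv_sq (h4 : S_LB) {P : ℕ → ℕ} {D : ∀ k, Lv (P k) (P (k + 1))} (x : XX P D) (k : ℕ) :
    ‖x k‖ ^ 2 ≤ 4 / 3 * pq2 (pr P D x k) :=
  h4 (P k) (P (k + 1)) (D k).σ (D k).J (D k).r (D k).hr (pr P D x k)

theorem smul_coord {P : ℕ → ℕ} {D : ∀ k, Lv (P k) (P (k + 1))} (w : ℝ) (hw : 0 ≤ w)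
    (x : XX P D) (k : ℕ) : ‖(((Real.sqrt w : ℝ) : ℂ) • x) k‖ ^ 2 = w * ‖x k‖ ^ 2 := by
  rw [lp.coeFn_smul, Pi.smul_apply, norm_smul, Complex.norm_real, Real.norm_eq_abs, mul_pow,
    sq_abs, Real.sq_sqrt hw]

theorem cn (h1 : S_NX) (h2 : S_SPL) (h3 : S_LAT) (h4 : S_LB) (h5 : S_LG) : S_CN := by
  intro P D c m J₁ K ε R hC
  obtain ⟨Cst, hCst, hNX⟩ := h1 P D c m J₁ K ε R hC
  refine ⟨Cst, hCst, ?_⟩
  intro N ϖ u f hϖ hK hu hf hwf huc huc1 hfc hfc1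
  obtain ⟨G, n, F, b, hG, hn, hGF, hE, hb, hr⟩ := hNX N ϖ u hϖ hK hu huc huc1
  refine ⟨G, hG, ?_⟩
  obtain ⟨S, hS⟩ : ∃ S : Fin N → XX P D, ∀ i, ∑ j, ((ϖ j : ℂ) * G j (u i)) • u j = S i :=
    ⟨_, fun _ => rfl⟩
  simp only [hS] at hE hr ⊢
  set t : ℝ := 2 ^ (D c).J with ht
  have ht0 : 0 < t := by positivity
  -- the error terms
  obtain ⟨E, hEdef⟩ : ∃ E : Fin N → ℝ, ∀ i, (∑ k ∈ Finset.range c, pq2 (pr P D (u i - S i) k) +
      1 / t * pq2 (pr P D (u i - S i) c)) = E i := ⟨_, fun _ => rfl⟩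
  simp only [hEdef] at hE
  have hE0 : ∀ i, 0 ≤ E i := by
    intro i
    rw [← hEdef]
    exact add_nonneg (Finset.sum_nonneg fun _ _ => pq2_nn _)
      (mul_nonneg (by positivity) (pq2_nn _))
  obtain ⟨q, hq⟩ : ∃ q : Fin N → (Fin (P (c + 1)) → ℂ) × (Fin (P (c + 1 + 1)) → ℂ), ∀ i,
      ((1 / Real.sqrt t : ℝ) : ℂ) • pr P D (S i) (c + 1) - Gm (D (c + 1)).σ (b i) = q i :=
    ⟨_, fun _ => rfl⟩
  simp only [hq] at hr
  obtain ⟨L, hL⟩ : ∃ L : Fin N → ℝ, ∀ i, (∑' k, if c + 1 < k then ‖S i k‖ ^ 2 else 0) = L i :=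
    ⟨_, fun _ => rfl⟩
  have hL0 : ∀ i, 0 ≤ L i := by
    intro i
    rw [← hL]
    refine tsum_nonneg fun k => ?_
    split_ifs <;> positivity
  -- the pointwise bound
  have hpt : ∀ i, ‖f i (Qb P D (c + 1) (u i) - S i)‖ ≤
      Real.sqrt (8 / 3) * Real.sqrt (E i) + (2 * R / t + Real.sqrt (4 / 3) *
        Real.sqrt (pq2 (q i))) + ‖f i‖ * Real.sqrt (L i) := by
    intro i
    have h6 := h2 P D (f i) c (u i) (S i)
    rw [hL] at h6
    -- terms 1 and 2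
    have h7 : ‖f i‖ * Real.sqrt (∑ k ∈ Finset.range c, ‖(u i - S i) k‖ ^ 2) ≤
        Real.sqrt (4 / 3 * ∑ k ∈ Finset.range c, pq2 (pr P D (u i - S i) k)) := by
      refine (mul_le_of_le_one_left (Real.sqrt_nonneg _) (hf i)).trans (Real.sqrt_le_sqrt ?_)
      rw [Finset.mul_sum]
      exact Finset.sum_le_sum fun k _ => norm_lv_sq h4 _ k
    have hinv : ∀ x : ℝ, 0 ≤ x → x ^ 2 ≤ 1 / t → x ≤ Real.sqrt (1 / t) := fun x _ h =>
      Real.le_sqrt_of_sq_le h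
    have h8 : ‖(f i).comp (emb P D c)‖ * ‖(u i - S i) c‖ ≤
        Real.sqrt (4 / 3 * (1 / t * pq2 (pr P D (u i - S i) c))) := by
      have h9 := hinv _ (norm_nonneg _) (hfc i)
      have h10 : ‖(u i - S i) c‖ ≤ Real.sqrt (4 / 3 * pq2 (pr P D (u i - S i) c)) :=
        Real.le_sqrt_of_sq_le (norm_lv_sq h4 _ c)
      calc _ ≤ Real.sqrt (1 / t) * Real.sqrt (4 / 3 * pq2 (pr P D (u i - S i) c)) :=
            mul_le_mul h9 h10 (norm_nonneg _) (Real.sqrt_nonneg _)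
        _ = _ := by
            rw [← Real.sqrt_mul (by positivity)]
            congr 1
            ring
    have h11 : ‖f i‖ * Real.sqrt (∑ k ∈ Finset.range c, ‖(u i - S i) k‖ ^ 2) +
        ‖(f i).comp (emb P D c)‖ * ‖(u i - S i) c‖ ≤ Real.sqrt (8 / 3) * Real.sqrt (E i) := by
      refine (add_le_add h7 h8).trans ((sqrt_add_sqrt_le ?_ ?_).trans (le_of_eq ?_))
      · exact mul_nonneg (by norm_num) (Finset.sum_nonneg fun _ _ => pq2_nn _)
      · exact mul_nonneg (by norm_num) (mul_nonneg (by positivity) (pq2_nn _))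
      · rw [← Real.sqrt_mul (by norm_num), ← hEdef]
        congr 1
        ring
    -- term 3
    have h12 : ‖S i (c + 1)‖ ≤ Real.sqrt t * (2 * R / t + Real.sqrt (4 / 3) *
        Real.sqrt (pq2 (q i))) := by
      have h13 : pr P D (S i) (c + 1) = ((Real.sqrt t : ℝ) : ℂ) •
          (Gm (D (c + 1)).σ (b i) + q i) := by
        rw [← hq, add_sub_cancel, smul_smul, ← Complex.ofReal_mul, mul_one_div,
          div_self (Real.sqrt_pos.2 ht0).ne', Complex.ofReal_one, one_smul]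
      have h14 : ‖S i (c + 1)‖ = lnm (D (c + 1)).σ (D (c + 1)).J (D (c + 1)).r
          (pr P D (S i) (c + 1)) := rfl
      rw [h14, h13, lnm_smul _ _ (D (c + 1)).hr, Complex.norm_real, Real.norm_eq_abs,
        abs_of_nonneg (Real.sqrt_nonneg _)]
      refine mul_le_mul_of_nonneg_left ?_ (Real.sqrt_nonneg _)
      refine (lnm_add _ _ (D (c + 1)).hr _ _).trans (add_le_add ?_ ?_)
      · refine (h5 _ _ (D (c + 1)).σ (D (c + 1)).J (D (c + 1)).r hC.hP (D (c + 1)).hr hC.hr8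
          (b i)).trans ?_
        rw [← hC.hJ, ← ht, div_mul_eq_mul_div]
        have := hb i
        gcongr
      · rw [← Real.sqrt_mul (by norm_num)]
        exact Real.le_sqrt_of_sq_le (h4 _ _ (D (c + 1)).σ (D (c + 1)).J (D (c + 1)).r
          (D (c + 1)).hr (q i))
    have h15 : ‖(f i).comp (emb P D (c + 1))‖ * ‖S i (c + 1)‖ ≤
        2 * R / t + Real.sqrt (4 / 3) * Real.sqrt (pq2 (q i)) := by
      have h9 := hinv _ (norm_nonneg _) (hfc1 i)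
      calc _ ≤ Real.sqrt (1 / t) * (Real.sqrt t * (2 * R / t + Real.sqrt (4 / 3) *
              Real.sqrt (pq2 (q i)))) :=
            mul_le_mul h9 h12 (norm_nonneg _) (Real.sqrt_nonneg _)
        _ = _ := by
            rw [← mul_assoc, ← Real.sqrt_mul (by positivity), one_div,
              inv_mul_cancel₀ ht0.ne', Real.sqrt_one, one_mul]
    linarith
  -- the late levels
  have hlate : ∑ i, ϖ i * L i ≤
      27 * 4 ^ J₁ * ∑ j, ϖ j * ∑ k ∈ Finset.Ioo (c + 1) m, ‖u j k‖ ^ 2 +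
        20 * ∑ j, ϖ j * ∑' k, if c + 1 < k ∧ m ≤ k then ‖u j k‖ ^ 2 else 0 := by
    have h6 := h3 P D c m J₁ K ε R hC n N F hn (fun j => ((Real.sqrt (ϖ j) : ℝ) : ℂ) • u j)
    have e1 : ∀ i, ∑ j, F.a j i • (((Real.sqrt (ϖ j) : ℝ) : ℂ) • u j) =
        ((Real.sqrt (ϖ i) : ℝ) : ℂ) • S i := by
      intro i
      rw [← hS, Finset.smul_sum]
      refine Finset.sum_congr rfl fun j _ => ?_
      rw [← hGF, smul_smul, smul_smul]
      congr 1
      have e2 : ((Real.sqrt (ϖ j) : ℝ) : ℂ) * ((Real.sqrt (ϖ j) : ℝ) : ℂ) = (ϖ j : ℂ) := by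
        rw [← Complex.ofReal_mul, Real.mul_self_sqrt (hϖ j)]
      rw [← e2, Complex.ofReal_mul]
      ring
    have e3 : ∀ i, (∑' k, if c + 1 < k then
        ‖(∑ j, F.a j i • (((Real.sqrt (ϖ j) : ℝ) : ℂ) • u j)) k‖ ^ 2 else 0) = ϖ i * L i := by
      intro i
      rw [← hL, ← tsum_mul_left]
      refine tsum_congr fun k => ?_
      rw [e1, mul_ite, mul_zero, smul_coord _ (hϖ i)]
    have e4 : ∀ j, ∑ k ∈ Finset.Ioo (c + 1) m, ‖(((Real.sqrt (ϖ j) : ℝ) : ℂ) • u j) k‖ ^ 2 =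
        ϖ j * ∑ k ∈ Finset.Ioo (c + 1) m, ‖u j k‖ ^ 2 := by
      intro j
      rw [Finset.mul_sum]
      exact Finset.sum_congr rfl fun k _ => smul_coord _ (hϖ j) _ k
    have e5 : ∀ j, (∑' k, if c + 1 < k ∧ m ≤ k then
        ‖(((Real.sqrt (ϖ j) : ℝ) : ℂ) • u j) k‖ ^ 2 else 0) =
        ϖ j * ∑' k, if c + 1 < k ∧ m ≤ k then ‖u j k‖ ^ 2 else 0 := by
      intro j
      rw [← tsum_mul_left]
      refine tsum_congr fun k => ?_
      rw [mul_ite, mul_zero, smul_coord _ (hϖ j)]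
    simp only [e3, e4, e5] at h6
    exact h6
  -- summation
  have hsum : ‖∑ i, (ϖ i : ℂ) * f i (Qb P D (c + 1) (u i) - S i)‖ ≤
      ∑ i, ϖ i * (Real.sqrt (8 / 3) * Real.sqrt (E i) + (2 * R / t + Real.sqrt (4 / 3) *
        Real.sqrt (pq2 (q i))) + ‖f i‖ * Real.sqrt (L i)) := by
    refine (norm_sum_le _ _).trans (Finset.sum_le_sum fun i _ => ?_)
    rw [norm_mul, Complex.norm_real, Real.norm_eq_abs, abs_of_nonneg (hϖ i)]
    exact mul_le_mul_of_nonneg_left (hpt i) (hϖ i)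
  have hexp : ∑ i, ϖ i * (Real.sqrt (8 / 3) * Real.sqrt (E i) + (2 * R / t +
      Real.sqrt (4 / 3) * Real.sqrt (pq2 (q i))) + ‖f i‖ * Real.sqrt (L i)) =
      Real.sqrt (8 / 3) * ∑ i, ϖ i * Real.sqrt (E i) + 2 * R / t * ∑ i, ϖ i +
      Real.sqrt (4 / 3) * ∑ i, ϖ i * Real.sqrt (pq2 (q i)) +
      ∑ i, ϖ i * (‖f i‖ * Real.sqrt (L i)) := by
    simp only [Finset.mul_sum, ← Finset.sum_add_distrib]
    exact Finset.sum_congr rfl fun i _ => by ring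
  have hA := cs_sqrt ϖ E hϖ hE0 hK hC.hε hE
  have hB := cs_sqrt ϖ (fun i => pq2 (q i)) hϖ (fun i => pq2_nn _) hK hC.hε hr
  have hD : ∑ i, ϖ i * (‖f i‖ * Real.sqrt (L i)) ≤ Real.sqrt
      (27 * 4 ^ J₁ * ∑ j, ϖ j * ∑ k ∈ Finset.Ioo (c + 1) m, ‖u j k‖ ^ 2 +
        20 * ∑ j, ϖ j * ∑' k, if c + 1 < k ∧ m ≤ k then ‖u j k‖ ^ 2 else 0) := by
    have h6 := cs_w ϖ (fun i => ‖f i‖) (fun i => Real.sqrt (L i)) hϖ
    have e2 : ∀ i, ϖ i * Real.sqrt (L i) ^ 2 = ϖ i * L i := fun i => by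
      rw [Real.sq_sqrt (hL0 i)]
    simp only [e2] at h6
    refine h6.trans ?_
    refine (mul_le_of_le_one_left (Real.sqrt_nonneg _) ?_).trans (Real.sqrt_le_sqrt hlate)
    rw [← Real.sqrt_one]
    exact Real.sqrt_le_sqrt hwf
  have hRt : 2 * R / t * ∑ i, ϖ i ≤ 2 * K * R / t := by
    have h6 : 0 ≤ 2 * R / t := by
      have := hC.hR0
      positivity
    calc 2 * R / t * ∑ i, ϖ i ≤ 2 * R / t * K := mul_le_mul_of_nonneg_left hK h6
      _ = 2 * K * R / t := by ring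
  have hconst : Real.sqrt (8 / 3) + Real.sqrt (4 / 3) ≤ 4 := by
    have h6 : Real.sqrt (8 / 3) ≤ 2 := by
      rw [Real.sqrt_le_left (by norm_num)]
      norm_num
    have h7 : Real.sqrt (4 / 3) ≤ 2 := by
      rw [Real.sqrt_le_left (by norm_num)]
      norm_num
    linarith
  refine hsum.trans ?_
  rw [hexp]
  have h8 : Real.sqrt (8 / 3) * ∑ i, ϖ i * Real.sqrt (E i) ≤
      Real.sqrt (8 / 3) * (Real.sqrt K * ε) :=
    mul_le_mul_of_nonneg_left hA (Real.sqrt_nonneg _)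
  have h9 : Real.sqrt (4 / 3) * ∑ i, ϖ i * Real.sqrt (pq2 (q i)) ≤
      Real.sqrt (4 / 3) * (Real.sqrt K * ε) :=
    mul_le_mul_of_nonneg_left hB (Real.sqrt_nonneg _)
  have h10 : Real.sqrt (8 / 3) * (Real.sqrt K * ε) + Real.sqrt (4 / 3) * (Real.sqrt K * ε) ≤
      4 * Real.sqrt K * ε := by
    have h11 : 0 ≤ Real.sqrt K * ε := mul_nonneg (Real.sqrt_nonneg _) hC.hε
    nlinarith
  linarith

end Pool.Agent.Helper93.HL
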