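import Pool.Agent.Helper25.HL.Goals4

/-!
Packet HL-PO (MP_03bcbb_an): positions and scales of the windows exist.
-/

set_option autoImplicit false

open Filter Topology

noncomputable section

namespace Pool.Agent.Helper93.HL

open Pool.Agent.Helper25.HL

/-- One step: the window after the position `B`. -/
theorem po_step (h : S_NL) (P : ℕ → ℕ) (K η : ℕ → ℝ) (J₁ : ℕ → ℕ) (hP1 : ∀ k, 1 ≤ P k)
    (hK : ∀ i, 0 ≤ K i)
    (hKJ : ∀ i, 2 ^ 20 * (1 + K i) * (2 / 2 ^ (J₁ i)) ≤ (1 / (1 + K i)) ^ 2) (i B : ℕ) :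
    ∃ (θ : ℝ) (Ψ Jw a b : ℕ), 2 ≤ a ∧ B < a ∧ b = a + 2 + ⌈η i * 2 ^ Jw⌉₊ ∧
      (∀ p q : ℕ, Ψ ≤ p → p ^ 8 ≤ q → q ≤ 2 ^ (Nat.sqrt p / 4) →
        ∃ σ : Fin p → Fin q → Bool, P1 σ ∧ P2 σ ∧
          ∀ θ' : ℝ, θ ≤ θ' → NLP σ (1 + K i) (1 / (1 + K i))
            ((((P B) ^ 8 : ℕ) : ℝ) ^ (J₁ i)) (2 / 2 ^ (J₁ i)) θ') ∧
      θ ≤ 2 ^ Jw ∧ (J₁ i < Jw ∧ i ≤ Jw ∧ Jw ≤ a) ∧
      ((i : ℝ) + 1) * ((1 + K i) * (((P B) ^ 8 : ℕ) : ℝ) ^ (J₁ i)) ≤ 2 ^ Jw ∧ Ψ ≤ a := by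
  have hK1 : (1 : ℝ) ≤ 1 + K i := by linarith [hK i]
  have hK0 : (0 : ℝ) < 1 + K i := by linarith
  have hρ : (1 : ℝ) ≤ (((P B) ^ 8 : ℕ) : ℝ) := by
    exact_mod_cast Nat.one_le_pow _ _ (hP1 B)
  obtain ⟨θ, Ψ, hΨ⟩ := h (1 + K i) (1 / (1 + K i)) ((((P B) ^ 8 : ℕ) : ℝ) ^ (J₁ i))
    (2 / 2 ^ (J₁ i)) hK1 (by positivity) ((div_le_one hK0).2 hK1) (one_le_pow₀ hρ)
    (by positivity) (hKJ i)
  obtain ⟨n, hn⟩ := pow_unbounded_of_one_lt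
    (max θ (((i : ℝ) + 1) * ((1 + K i) * (((P B) ^ 8 : ℕ) : ℝ) ^ (J₁ i)))) one_lt_two
  have hmax := max_lt_iff.1 hn
  set Jw : ℕ := max n (max (J₁ i + 1) i) with hJw
  have hJn : n ≤ Jw := le_max_left _ _
  have hJ1 : J₁ i + 1 ≤ Jw := le_trans (le_max_left _ _) (le_max_right _ _)
  have hJi : i ≤ Jw := le_trans (le_max_right _ _) (le_max_right _ _)
  have hpow : (2 : ℝ) ^ n ≤ 2 ^ Jw := pow_le_pow_right₀ one_le_two hJn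
  set a : ℕ := max (max (B + 1) 2) (max Jw Ψ) with ha
  refine ⟨θ, Ψ, Jw, a, a + 2 + ⌈η i * 2 ^ Jw⌉₊, ?_, ?_, rfl, hΨ, ?_, ⟨?_, hJi, ?_⟩, ?_, ?_⟩
  · exact le_trans (le_max_right _ _) (le_max_left _ _)
  · exact lt_of_lt_of_le (Nat.lt_succ_self B) (le_trans (le_max_left _ _) (le_max_left _ _))
  · exact hmax.1.le.trans hpow
  · omega
  · exact le_trans (le_max_left _ _) (le_max_right _ _)
  · exact hmax.2.le.trans hpow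
  · exact le_trans (le_max_right _ _) (le_max_right _ _)

theorem po (h : S_NL) : S_PO := by
  intro P K η J₁ hPk hP1 hK _ hKJ
  have hstep := po_step h P K η J₁ hP1 hK hKJ
  choose θ Ψ Jw a b h1 h2 h3 h4 h5 h6 h7 h8 using hstep
  -- the ends of the windows
  obtain ⟨B, hB0, hB⟩ : ∃ B : ℕ → ℕ, B 0 = 1 ∧ ∀ i, B (i + 1) = b i (B i) :=
    ⟨fun n => Nat.rec 1 (fun i r => b i r) n, rfl, fun _ => rfl⟩
  refine ⟨{
    a := fun i => a i (B i)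
    b := fun i => b i (B i)
    Jw := fun i => Jw i (B i)
    ρ := fun i => (P (B i)) ^ 8
    θ₀ := fun i => θ i (B i)
    Ψ := fun i => Ψ i (B i)
    h2 := h1 0 (B 0)
    hba := fun i => ?_
    hb := fun i => h3 i (B i)
    hρ0 := by rw [hB0]
    hρ := fun i => by rw [hB]
    hnl := fun i => h4 i (B i)
    hθ := fun i => h5 i (B i)
    hJ := fun i => h6 i (B i)
    hR := fun i => h7 i (B i)
    hΨ := fun i => (h8 i (B i)).trans (hPk _) }⟩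
  have h9 := h2 (i + 1) (B (i + 1))
  rw [hB] at h9 ⊢
  exact h9

end Pool.Agent.Helper93.HL
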