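import Pool.Agent.Helper25.HL.Goals2

/-!
Packet HL-R2 (MP_03bcbb_an): almost orthogonality of the rows holds for most codes.
-/

set_option autoImplicit false

namespace Pool.Agent.Helper93.HL

open Pool.Agent.Helper25.HL Finset

theorem sg_cases (b : Bool) : sg b = 1 ∨ sg b = -1 := by
  unfold sg
  cases b <;> simp

theorem sg_not (b : Bool) : sg (!b) = - sg b := by
  unfold sg
  cases b <;> simp

/-- One column. -/
theorem col_sum {p : ℕ} {a b : Fin p} (hab : a ≠ b) (lam : ℝ) :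
    ∑ c : Fin p → Bool, Real.exp (lam * (sg (c a) * sg (c b))) = 2 ^ p * Real.cosh lam := by
  classical
  have h1 : ∑ c : Fin p → Bool, Real.exp (lam * (sg (c a) * sg (c b))) =
      ∑ c : Fin p → Bool, Real.exp (-(lam * (sg (c a) * sg (c b)))) := by
    refine Finset.sum_nbij' (fun c => Function.update c a (!(c a)))
      (fun c => Function.update c a (!(c a))) (fun _ _ => Finset.mem_univ _)
      (fun _ _ => Finset.mem_univ _) ?_ ?_ ?_
    · intro c _
      simp
    · intro c _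
      simp
    · intro c _
      simp only [Function.update_self, Function.update_of_ne (Ne.symm hab)]
      rw [sg_not]
      congr 1
      ring
  have h2 : ∀ c : Fin p → Bool, Real.exp (lam * (sg (c a) * sg (c b))) +
      Real.exp (-(lam * (sg (c a) * sg (c b)))) = 2 * Real.cosh lam := by
    intro c
    have h3 : 2 * Real.cosh (lam * (sg (c a) * sg (c b))) =
        Real.exp (lam * (sg (c a) * sg (c b))) + Real.exp (-(lam * (sg (c a) * sg (c b)))) := by
      rw [Real.cosh_eq]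
      ring
    rw [← h3]
    rcases sg_cases (c a) with h4 | h4 <;> rcases sg_cases (c b) with h5 | h5 <;>
      rw [h4, h5] <;> simp
  have h6 : 2 * ∑ c : Fin p → Bool, Real.exp (lam * (sg (c a) * sg (c b))) =
      2 * (2 ^ p * Real.cosh lam) := by
    have h7 : 2 * ∑ c : Fin p → Bool, Real.exp (lam * (sg (c a) * sg (c b))) =
        ∑ c : Fin p → Bool, (Real.exp (lam * (sg (c a) * sg (c b))) +
          Real.exp (-(lam * (sg (c a) * sg (c b))))) := by
      rw [Finset.sum_add_distrib, ← h1]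
      ring
    rw [h7, Finset.sum_congr rfl (fun c _ => h2 c), Finset.sum_const, nsmul_eq_mul,
      Finset.card_univ, Fintype.card_fun, Fintype.card_bool, Fintype.card_fin]
    push_cast
    ring
  linarith

/-- The exponential moment. -/
theorem exp_moment {p q : ℕ} {a b : Fin p} (hab : a ≠ b) (lam : ℝ) :
    ∑ σ : Fin p → Fin q → Bool, Real.exp (lam * ∑ t, sg (σ a t) * sg (σ b t)) ≤
      2 ^ (p * q) * Real.exp (q * (lam ^ 2 / 2)) := by
  have h1 : ∑ σ : Fin p → Fin q → Bool, Real.exp (lam * ∑ t, sg (σ a t) * sg (σ b t)) =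
      (∑ c : Fin p → Bool, Real.exp (lam * (sg (c a) * sg (c b)))) ^ q := by
    rw [Fintype.sum_pow]
    refine Fintype.sum_equiv (Equiv.piComm fun (_ : Fin p) (_ : Fin q) => Bool) _ _ ?_
    intro σ
    rw [Finset.mul_sum, Real.exp_sum]
    rfl
  rw [h1, col_sum hab, mul_pow, ← pow_mul, Real.exp_nat_mul]
  exact mul_le_mul_of_nonneg_left (pow_le_pow_left₀ (Real.cosh_pos lam).le
    (Real.cosh_le_exp_half_sq lam) q) (by positivity)

theorem rm_mul {p q : ℕ} (σ : Fin p → Fin q → Bool) (a b : Fin p) :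
    ∑ t, Rm σ a t * Rm σ b t = (∑ t, sg (σ a t) * sg (σ b t)) / p := by
  rw [Finset.sum_div]
  refine Finset.sum_congr rfl fun t _ => ?_
  unfold Rm sg
  rw [div_mul_div_comm, Real.mul_self_sqrt (Nat.cast_nonneg p)]

theorem cnt_le {p q : ℕ} {P : (Fin p → Fin q → Bool) → Prop} {F : (Fin p → Fin q → Bool) → ℝ}
    (h0 : ∀ σ, 0 ≤ F σ) (h1 : ∀ σ, P σ → 1 ≤ F σ) : (cnt P : ℝ) ≤ ∑ σ, F σ := by
  classical
  unfold cnt
  rw [Finset.card_filter, Nat.cast_sum]
  refine Finset.sum_le_sum fun σ _ => ?_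
  by_cases h : P σ
  · rw [if_pos h, Nat.cast_one]
    exact h1 σ h
  · rw [if_neg h, Nat.cast_zero]
    exact h0 σ

open Classical in
theorem r2 : S_R2 := by
  refine ⟨12, fun p q hp hq => ?_⟩
  have hp0 : (0 : ℝ) < p := by
    have : 0 < p := by omega
    exact_mod_cast this
  have hp12 : (12 : ℝ) ≤ p := by exact_mod_cast hp
  have hq' : (p : ℝ) ^ 8 ≤ q := by exact_mod_cast hq
  set lam : ℝ := 1 / (p : ℝ) ^ 3 with hlam
  have hlam0 : 0 < lam := by positivity
  -- the penalty
  set w : ℝ := lam * (q * lam) with hw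
  -- pointwise bound
  have hpt : ∀ σ : Fin p → Fin q → Bool, ¬ P2 σ → (1 : ℝ) ≤
      ∑ ab ∈ (univ : Finset (Fin p × Fin p)).filter (fun ab => ab.1 ≠ ab.2),
        (Real.exp (lam * (∑ t, sg (σ ab.1 t) * sg (σ ab.2 t)) - w) +
          Real.exp ((-lam) * (∑ t, sg (σ ab.1 t) * sg (σ ab.2 t)) - w)) := by
    intro σ hσ
    unfold P2 at hσ
    push Not at hσ
    obtain ⟨a, b, hab, hlt⟩ := hσ
    have hterm : (1 : ℝ) ≤ Real.exp (lam * (∑ t, sg (σ a t) * sg (σ b t)) - w) +
          Real.exp ((-lam) * (∑ t, sg (σ a t) * sg (σ b t)) - w) := by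
      rw [rm_mul] at hlt
      generalize (∑ t, sg (σ a t) * sg (σ b t)) = s at hlt ⊢
      have h1 : (q : ℝ) < (p : ℝ) ^ 3 * |s| := by
        have h2 : (p : ℝ) ^ 4 * |s / p| = (p : ℝ) ^ 3 * |s| := by
          rw [abs_div, abs_of_pos hp0]
          field_simp
        rw [← h2]
        exact hlt
      have h2 : (q : ℝ) * lam < |s| := by
        rw [hlam, mul_one_div, div_lt_iff₀ (by positivity)]
        linarith
      have h3 : w < lam * |s| := mul_lt_mul_of_pos_left h2 hlam0
      rcases le_total 0 s with h4 | h4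
      · rw [abs_of_nonneg h4] at h3
        have h5 : (1 : ℝ) ≤ Real.exp (lam * s - w) := Real.one_le_exp (by linarith)
        have h6 := (Real.exp_pos (-lam * s - w)).le
        linarith
      · rw [abs_of_nonpos h4] at h3
        have h5 : (1 : ℝ) ≤ Real.exp (-lam * s - w) := Real.one_le_exp (by linarith)
        have h6 := (Real.exp_pos (lam * s - w)).le
        linarith
    refine hterm.trans ?_
    exact Finset.single_le_sum
      (f := fun ab : Fin p × Fin p =>
        (Real.exp (lam * (∑ t, sg (σ ab.1 t) * sg (σ ab.2 t)) - w) +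
          Real.exp ((-lam) * (∑ t, sg (σ ab.1 t) * sg (σ ab.2 t)) - w)))
      (fun _ _ => by positivity)
      (Finset.mem_filter.2 ⟨Finset.mem_univ (a, b), hab⟩)
  -- sum over all codes
  have h1 : (cnt (fun σ : Fin p → Fin q → Bool => ¬ P2 σ) : ℝ) ≤
      ∑ σ : Fin p → Fin q → Bool,
        ∑ ab ∈ (univ : Finset (Fin p × Fin p)).filter (fun ab => ab.1 ≠ ab.2),
        (Real.exp (lam * (∑ t, sg (σ ab.1 t) * sg (σ ab.2 t)) - w) +
          Real.exp ((-lam) * (∑ t, sg (σ ab.1 t) * sg (σ ab.2 t)) - w)) := by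
    exact cnt_le (fun σ => Finset.sum_nonneg fun _ _ => by positivity) hpt
  refine h1.trans ?_
  rw [Finset.sum_comm]
  have h2 : ∀ ab ∈ (univ : Finset (Fin p × Fin p)).filter (fun ab => ab.1 ≠ ab.2),
      ∑ σ : Fin p → Fin q → Bool, (Real.exp (lam * (∑ t, sg (σ ab.1 t) * sg (σ ab.2 t)) - w) +
          Real.exp ((-lam) * (∑ t, sg (σ ab.1 t) * sg (σ ab.2 t)) - w)) ≤
        2 * (2 ^ (p * q) * Real.exp (-((p : ℝ) ^ 2 / 2))) := by
    intro ab hab
    have hab' := (Finset.mem_filter.1 hab).2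
    have h3 : ∀ l : ℝ, l ^ 2 = lam ^ 2 → ∑ σ : Fin p → Fin q → Bool,
        Real.exp (l * (∑ t, sg (σ ab.1 t) * sg (σ ab.2 t)) - w) ≤
          2 ^ (p * q) * Real.exp (-((p : ℝ) ^ 2 / 2)) := by
      intro l hl
      have h4 := exp_moment (q := q) hab' l
      have h5 : ∀ σ : Fin p → Fin q → Bool,
          Real.exp (l * (∑ t, sg (σ ab.1 t) * sg (σ ab.2 t)) - w) =
            Real.exp (l * (∑ t, sg (σ ab.1 t) * sg (σ ab.2 t))) * Real.exp (-w) := by
        intro σ
        rw [← Real.exp_add, sub_eq_add_neg]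
      rw [Finset.sum_congr rfl (fun σ _ => h5 σ), ← Finset.sum_mul]
      refine (mul_le_mul_of_nonneg_right h4 (Real.exp_pos _).le).trans ?_
      rw [mul_assoc, ← Real.exp_add]
      refine mul_le_mul_of_nonneg_left (Real.exp_le_exp.2 ?_) (by positivity)
      rw [hl]
      have h6 : (p : ℝ) ^ 2 ≤ q * lam ^ 2 := by
        rw [hlam, one_div, inv_pow, ← pow_mul, ← div_eq_mul_inv, le_div_iff₀ (by positivity)]
        calc (p : ℝ) ^ 2 * (p : ℝ) ^ (3 * 2) = (p : ℝ) ^ 8 := by ring
          _ ≤ (q : ℝ) := hq'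
      rw [hw]
      nlinarith
    rw [Finset.sum_add_distrib, two_mul]
    exact add_le_add (h3 lam rfl) (h3 (-lam) (by ring))
  refine (Finset.sum_le_sum h2).trans ?_
  rw [Finset.sum_const, nsmul_eq_mul]
  have h7 : (((univ : Finset (Fin p × Fin p)).filter (fun ab => ab.1 ≠ ab.2)).card : ℝ) ≤
      (p : ℝ) ^ 2 := by
    have h8 := Finset.card_filter_le (univ : Finset (Fin p × Fin p)) (fun ab => ab.1 ≠ ab.2)
    rw [Finset.card_univ, Fintype.card_prod, Fintype.card_fin] at h8
    have h9 : (((univ : Finset (Fin p × Fin p)).filter (fun ab => ab.1 ≠ ab.2)).card : ℝ) ≤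
        ((p * p : ℕ) : ℝ) := by exact_mod_cast h8
    push_cast at h9
    nlinarith
  have h10 : Real.exp (-((p : ℝ) ^ 2 / 2)) ≤ 1 / (16 * (p : ℝ) ^ 2) := by
    rw [Real.exp_neg, ← one_div]
    refine one_div_le_one_div_of_le (by positivity) ?_
    have h11 := Real.quadratic_le_exp_of_nonneg (x := (p : ℝ) ^ 2 / 2) (by positivity)
    have h12 : (144 : ℝ) ≤ (p : ℝ) ^ 2 := by nlinarith
    generalize (p : ℝ) ^ 2 = y at h11 h12 ⊢
    nlinarith
  have hpos : (0 : ℝ) < 2 ^ (p * q) := by positivity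
  calc _ ≤ (p : ℝ) ^ 2 * (2 * (2 ^ (p * q) * (1 / (16 * (p : ℝ) ^ 2)))) := by
        refine mul_le_mul h7 ?_ (by positivity) (by positivity)
        gcongr
    _ = 2 ^ (p * q) / 8 := by
        field_simp
        norm_num

end Pool.Agent.Helper93.HL
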